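import Pool.Agent.W78.EG.Defs2

/-!
# Project EG (helper78), part FINQ (helper347)
-/

set_option autoImplicit false

open Finset Filter
open scoped Classical Topology

namespace Pool.Agent.W347.EG

open Pool.Agent.W78.EG

/-! ## counting -/

theorem card_cmp {α β : Type} {S : Finset α} {T small : Finset β} {φ : α → β}
    (hφ : Function.Injective φ) (h1 : ∀ p ∈ S, φ p ∈ T ∨ φ p ∈ small)
    (h2 : ∀ P ∈ T, (∃ p ∈ S, φ p = P) ∨ P ∈ small) (Q : α → Prop) (Q' : β → Prop)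
    (hQ : ∀ p ∈ S, Q p ↔ Q' (φ p)) :
    |((S.filter Q).card : ℝ) - ((T.filter Q').card : ℝ)| ≤ small.card := by
  have e1 : (S.filter Q).card ≤ (T.filter Q').card + small.card := by
    rw [← card_image_of_injective _ hφ]
    refine (card_le_card ?_).trans (card_union_le _ _)
    intro x hx
    obtain ⟨p, hp, rfl⟩ := mem_image.1 hx
    obtain ⟨hp1, hp2⟩ := mem_filter.1 hp
    rcases h1 p hp1 with h | h
    · exact mem_union_left _ (mem_filter.2 ⟨h, (hQ p hp1).1 hp2⟩)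
    · exact mem_union_right _ h
  have e2 : (T.filter Q').card ≤ (S.filter Q).card + small.card := by
    rw [← card_image_of_injective (S.filter Q) hφ]
    refine (card_le_card ?_).trans (card_union_le _ _)
    intro x hx
    obtain ⟨hx1, hx2⟩ := mem_filter.1 hx
    rcases h2 x hx1 with ⟨p, hp, rfl⟩ | h
    · exact mem_union_left _ (mem_image.2 ⟨p, mem_filter.2 ⟨hp, (hQ p hp).2 hx2⟩, rfl⟩)
    · exact mem_union_right _ h
  have e1' : ((S.filter Q).card : ℝ) ≤ (T.filter Q').card + small.card := by exact_mod_cast e1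
  have e2' : ((T.filter Q').card : ℝ) ≤ (S.filter Q).card + small.card := by exact_mod_cast e2
  rw [abs_le]
  constructor <;> linarith

/-! ## arithmetic -/

theorem parity {t c a b e : ℤ} (ht : t = 0 ∨ t = 1) (h : b ^ 2 - 4 * a * e = t ^ 2 - 4 * c) :
    ∃ β : ℤ, b = 2 * β + t := by
  obtain ⟨x, rfl | rfl⟩ := Int.even_or_odd' b
  · rcases ht with rfl | rfl
    · exact ⟨x, by ring⟩
    · exfalso
      have h1 : 4 * (x * x) - 4 * (a * e) = 1 - 4 * c := by linarith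
      omega
  · rcases ht with rfl | rfl
    · exfalso
      have h1 : 4 * (x * x) + 4 * x + 1 - 4 * (a * e) = 0 - 4 * c := by linarith
      omega
    · exact ⟨x, rfl⟩

/-- the identity `n^2 + t n + c = a f(m)` -/
theorem ident {t c a b e β : ℤ} (hb : b = 2 * β + t) (h : b ^ 2 - 4 * a * e = t ^ 2 - 4 * c)
    (m : ℤ) : (a * m + β) ^ 2 + t * (a * m + β) + c = a * (a * m ^ 2 + b * m + e) := by
  subst hb
  have : 4 * ((a * m + β) ^ 2 + t * (a * m + β) + c) =
      4 * (a * (a * m ^ 2 + (2 * β + t) * m + e)) := by linear_combination h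
  linarith

theorem small_of {t c n b x y : ℤ} {f : ℕ} (hd : 4 * c = t ^ 2 + f)
    (h1 : -|b| ≤ 2 * n + t) (h2 : 2 * n + t ≤ |b|) (hxy : x * y = n ^ 2 + t * n + c) (hx : 1 ≤ x)
    (hy : 1 ≤ y) : x ≤ b ^ 2 + f ∧ y ≤ b ^ 2 + f := by
  have e1 : (2 * n + t) ^ 2 ≤ b ^ 2 := by
    rw [← sq_abs b]
    exact sq_le_sq' h1 h2
  have e2 : 4 * (x * y) = (2 * n + t) ^ 2 + f := by rw [hxy]; linear_combination hd
  have e3 : x * y ≤ b ^ 2 + f := by nlinarith [sq_nonneg b]
  constructor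
  · nlinarith
  · nlinarith

/-! ## the two maps -/

section maps

variable {t c a b e β : ℤ} {f q u r n₀ A C : ℕ} {s₁ s₂ s₃ s₄ : ℝ} {X : ℕ}

theorem fwd (ht : t = 0 ∨ t = 1) (hd : 4 * c = t ^ 2 + f) (hb : b = 2 * β + t)
    (h : b ^ 2 - 4 * a * e = t ^ 2 - 4 * c) (hA : (A : ℤ) = a) (hA1 : 1 ≤ A)
    (hn₀ : (n₀ : ℤ) ≡ a * u + β [ZMOD (a * q)]) (hC1 : 1 ≤ C) (hC2 : A * s₂ ≤ C) (hC4 : s₄ ≤ C)
    (hs2 : 0 ≤ s₂) (hs4 : 0 ≤ s₄)
    (p : ℕ × ℕ) (hp : p ∈ SV a b e q u r s₁ s₂ s₃ s₄ X) :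
    (A * p.1, p.2) ∈ SW t c (A * q) n₀ (A * r) (A * s₁ / C) (A * s₂ / C) (s₃ / C) (s₄ / C) (C * X) ∨
    (A * p.1, p.2) ∈ Icc 1 (b ^ 2 + f).toNat ×ˢ Icc 1 (b ^ 2 + f).toNat := by
  unfold SV at hp
  obtain ⟨hp0, h1, h3, m, hm, hmu, hpr⟩ := mem_filter.1 hp
  obtain ⟨hp1, hp2⟩ := mem_product.1 hp0
  obtain ⟨hp11, hp12⟩ := mem_Icc.1 hp1
  obtain ⟨hp21, hp22⟩ := mem_Icc.1 hp2
  have hX0 : (0 : ℝ) ≤ X := Nat.cast_nonneg X
  have h2 : (p.1 : ℝ) ≤ s₂ * X := (Nat.le_floor_iff (by positivity)).1 hp12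
  have h4 : (p.2 : ℝ) ≤ s₄ * X := (Nat.le_floor_iff (by positivity)).1 hp22
  have hC0 : (0 : ℝ) < C := by exact_mod_cast hC1
  have hA0 : (0 : ℝ) < A := by exact_mod_cast hA1
  have hid := ident hb h (m : ℤ)
  have haz : 0 < a := by rw [← hA]; exact_mod_cast hA1
  have hxy : ((A : ℤ) * (p.1 : ℤ)) * (p.2 : ℤ) = (a * m + β) ^ 2 + t * (a * m + β) + c := by
    rw [hid, ← hm, hA]; ring
  have hm0 : (0 : ℤ) ≤ a * m := by positivity
  by_cases hpos : 0 < 2 * (a * (m : ℤ) + β) + t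
  · left
    have hn0 : 0 ≤ a * (m : ℤ) + β := by rcases ht with rfl | rfl <;> omega
    obtain ⟨n, hn⟩ := Int.eq_ofNat_of_zero_le hn0
    have hn' : (n : ℤ) = a * (m : ℤ) + β := hn.symm
    have hex : 0 < 2 * (n : ℤ) + t ∧
        (((A * p.1 : ℕ) : ℤ) * (p.2 : ℤ)) = (n : ℤ) ^ 2 + t * n + c := by
      rw [hn']
      refine ⟨hpos, ?_⟩
      push_cast
      exact hxy
    unfold SW
    rw [mem_filter]
    refine ⟨?_, ?_, ?_, ?_, ?_, ?_⟩
    · unfold SP
      rw [mem_filter, mem_product, mem_Icc, mem_Icc]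
      refine ⟨⟨⟨Nat.one_le_iff_ne_zero.2 (by positivity), ?_⟩, hp21, ?_⟩, n, hex⟩
      · have : ((A * p.1 : ℕ) : ℝ) ≤ ((C * X : ℕ) : ℝ) := by
          push_cast
          calc (A : ℝ) * p.1 ≤ A * (s₂ * X) := by gcongr
            _ = A * s₂ * X := by ring
            _ ≤ C * X := by gcongr
        exact_mod_cast this
      · have : ((p.2 : ℕ) : ℝ) ≤ ((C * X : ℕ) : ℝ) := by
          push_cast
          calc (p.2 : ℝ) ≤ s₄ * X := h4
            _ ≤ C * X := by gcongr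
        exact_mod_cast this
    · refine ⟨n, hex.1, hex.2, ?_, ?_⟩
      · rw [← Int.natCast_modEq_iff]
        push_cast
        rw [hA, hn']
        refine Int.ModEq.trans ?_ hn₀.symm
        refine Int.ModEq.add_right _ ?_
        exact Int.ModEq.mul_left' (Int.natCast_modEq_iff.2 hmu)
      · exact Nat.ModEq.mul_left' _ hpr
    · push_cast
      calc (A : ℝ) * s₁ / C * (C * X) = A * (s₁ * X) := by field_simp
        _ < A * p.1 := by gcongr
    · push_cast
      calc (A : ℝ) * p.1 ≤ A * (s₂ * X) := by gcongr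
        _ = (A : ℝ) * s₂ / C * (C * X) := by field_simp
    · push_cast
      calc s₃ / C * (C * X) = s₃ * X := by field_simp
        _ < p.2 := h3
    · push_cast
      calc (p.2 : ℝ) ≤ s₄ * X := h4
        _ = s₄ / C * (C * X) := by field_simp
  · right
    push Not at hpos
    have hb' : 2 * (a * (m : ℤ) + β) + t = 2 * (a * m) + b := by rw [hb]; ring
    have := small_of (n := a * m + β) (b := b) (x := (A : ℤ) * p.1) (y := p.2) hd
      (by rw [hb']; linarith [neg_abs_le b]) (by linarith [abs_nonneg b]) hxy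
      (by
        have : 1 ≤ A * p.1 := Nat.one_le_iff_ne_zero.2 (by positivity)
        exact_mod_cast this) (by exact_mod_cast hp21)
    rw [mem_product, mem_Icc, mem_Icc]
    refine ⟨⟨Nat.one_le_iff_ne_zero.2 (by positivity), ?_⟩, hp21, ?_⟩
    · have h5 := this.1
      show A * p.1 ≤ _
      zify
      rw [Int.toNat_of_nonneg (by positivity)]
      exact h5
    · have h5 := this.2
      show p.2 ≤ _
      zify
      rw [Int.toNat_of_nonneg (by positivity)]
      exact h5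

theorem bwd (hd : 4 * c = t ^ 2 + f) (hb : b = 2 * β + t)
    (h : b ^ 2 - 4 * a * e = t ^ 2 - 4 * c) (hA : (A : ℤ) = a) (hA1 : 1 ≤ A)
    (hn₀ : (n₀ : ℤ) ≡ a * u + β [ZMOD (a * q)]) (hC1 : 1 ≤ C)
    (P : ℕ × ℕ) (hP : P ∈ SW t c (A * q) n₀ (A * r) (A * s₁ / C) (A * s₂ / C) (s₃ / C) (s₄ / C)
      (C * X)) :
    (∃ p ∈ SV a b e q u r s₁ s₂ s₃ s₄ X, (A * p.1, p.2) = P) ∨
    P ∈ Icc 1 (b ^ 2 + f).toNat ×ˢ Icc 1 (b ^ 2 + f).toNat := by
  unfold SW at hP
  obtain ⟨hP0, ⟨n, hn1, hn2, hn3, hPr⟩, h1, h2, h3, h4⟩ := mem_filter.1 hP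
  unfold SP at hP0
  have hP0' := (mem_filter.1 hP0).1
  obtain ⟨hP1, hP2⟩ := mem_product.1 hP0'
  have hP11 := (mem_Icc.1 hP1).1
  have hP21 := (mem_Icc.1 hP2).1
  have hX0 : (0 : ℝ) ≤ X := Nat.cast_nonneg X
  have hC0 : (0 : ℝ) < C := by exact_mod_cast hC1
  have hA0 : (0 : ℝ) < A := by exact_mod_cast hA1
  have haz : 0 < a := by rw [← hA]; exact_mod_cast hA1
  -- `A ∣ P.1`
  have hAP : A ∣ P.1 := by
    have : P.1 ≡ A * r [MOD A] := Nat.ModEq.of_mul_right _ hPr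
    exact (Nat.ModEq.dvd_iff this dvd_rfl).2 (dvd_mul_right _ _)
  obtain ⟨d, hdP⟩ := hAP
  have hdr : d ≡ r [MOD q] := by
    rw [hdP] at hPr
    exact Nat.ModEq.mul_left_cancel' (by omega) hPr
  have hd1 : 1 ≤ d := by
    rcases Nat.eq_zero_or_pos d with h0 | h0
    · rw [h0, mul_zero] at hdP; omega
    · exact h0
  -- `n = a m + β`
  have hn4 : (n : ℤ) ≡ a * u + β [ZMOD (a * q)] := by
    refine Int.ModEq.trans ?_ hn₀
    have := Int.natCast_modEq_iff.2 hn3
    push_cast at this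
    rwa [hA] at this
  obtain ⟨z, hz⟩ := (Int.modEq_iff_dvd.1 hn4.symm)
  have hnm : (n : ℤ) = a * (u + q * z) + β := by linarith [hz, mul_assoc a (q : ℤ) z, mul_add a (u : ℤ) (q * z)]
  set m : ℤ := u + q * z with hmdef
  have hid := ident hb h m
  have hdm : (d : ℤ) * P.2 = a * m ^ 2 + b * m + e := by
    have h5 : a * ((d : ℤ) * P.2) = a * (a * m ^ 2 + b * m + e) := by
      rw [← hid, ← hnm, ← hn2, hdP, ← hA]
      push_cast
      ring
    exact mul_left_cancel₀ haz.ne' h5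
  by_cases hm0 : 0 ≤ m
  · left
    obtain ⟨m', hm'⟩ := Int.eq_ofNat_of_zero_le hm0
    refine ⟨(d, P.2), ?_, by rw [← hdP]⟩
    have e1 : s₁ * X < d := by
      rw [hdP] at h1
      push_cast at h1
      have : (A : ℝ) * s₁ / C * (C * X) = A * (s₁ * X) := by field_simp
      rw [this] at h1
      exact lt_of_mul_lt_mul_left h1 hA0.le
    have e2 : (d : ℝ) ≤ s₂ * X := by
      rw [hdP] at h2
      push_cast at h2
      have : (A : ℝ) * s₂ / C * (C * X) = A * (s₂ * X) := by field_simp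
      rw [this] at h2
      exact le_of_mul_le_mul_left h2 hA0
    have e3 : s₃ * X < P.2 := by
      push_cast at h3
      have : s₃ / C * (C * X) = s₃ * X := by field_simp
      rwa [this] at h3
    have e4 : (P.2 : ℝ) ≤ s₄ * X := by
      push_cast at h4
      have : s₄ / C * (C * X) = s₄ * X := by field_simp
      rwa [this] at h4
    unfold SV
    rw [mem_filter, mem_product, mem_Icc, mem_Icc]
    refine ⟨⟨⟨hd1, Nat.le_floor e2⟩, hP21, Nat.le_floor e4⟩, e1, e3, m', ?_, ?_, hdr⟩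
    · show (d : ℤ) * (P.2 : ℤ) = _
      rw [hdm, hm']
    · rw [← Int.natCast_modEq_iff]
      have : (m' : ℤ) = u + q * z := by rw [← hmdef, hm']
      rw [this]
      exact (Int.modEq_iff_dvd.2 ⟨z, by ring⟩ : (u : ℤ) ≡ u + q * z [ZMOD q]).symm
  · right
    push Not at hm0
    have hb' : 2 * (n : ℤ) + t = 2 * (a * m) + b := by rw [hnm, hb]; ring
    have ham : a * m < 0 := mul_neg_of_pos_of_neg haz hm0
    have := small_of (n := (n : ℤ)) (b := b) (x := (P.1 : ℤ)) (y := P.2) hd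
      (by linarith [abs_nonneg b]) (by linarith [le_abs_self b]) hn2
      (by exact_mod_cast hP11) (by exact_mod_cast hP21)
    rw [mem_product, mem_Icc, mem_Icc]
    refine ⟨⟨hP11, ?_⟩, hP21, ?_⟩
    · zify
      rw [Int.toNat_of_nonneg (by positivity)]
      exact this.1
    · zify
      rw [Int.toNat_of_nonneg (by positivity)]
      exact this.2

end maps

/-! ## comparison of the deviations -/

theorem dev_le {t c a b e : ℤ} {f : ℕ} {χ : DirichletCharacter ℂ f} (hF : Fd t c f χ) (ha : 0 < a)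
    (h : b ^ 2 - 4 * a * e = t ^ 2 - 4 * c) {k : ℕ} (hk : 1 ≤ k) {q : ℕ} (hq : 1 ≤ q) (u r i j : ℕ)
    {s₁ s₂ s₃ s₄ : ℝ} (hs2 : 0 ≤ s₂) (hs4 : 0 ≤ s₄) : ∃ (n₀ A C i' : ℕ) (K : ℝ), 1 ≤ A ∧ 1 ≤ C ∧
    A * s₂ ≤ C ∧ s₄ ≤ C ∧ 0 ≤ K ∧ ∀ X : ℕ,
    devV a b e k q u r i j s₁ s₂ s₃ s₄ X ≤
      devW t c k (A * q) n₀ (A * r) i' j (A * s₁ / C) (A * s₂ / C) (s₃ / C) (s₄ / C) (C * X) + K := by
  obtain ⟨β, hb⟩ := parity hF.tt h
  obtain ⟨A, hA⟩ := Int.eq_ofNat_of_zero_le ha.le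
  have hA' : (A : ℤ) = a := hA.symm
  have hA1 : 1 ≤ A := by omega
  obtain ⟨C, hC⟩ := exists_nat_ge (max 1 (max (A * s₂) s₄))
  have hC1 : 1 ≤ C := by
    have : (1 : ℝ) ≤ C := (le_max_left _ _).trans hC
    exact_mod_cast this
  have hC2 : A * s₂ ≤ C := ((le_max_left _ _).trans (le_max_right _ _)).trans hC
  have hC4 : s₄ ≤ C := ((le_max_right _ _).trans (le_max_right _ _)).trans hC
  have haq : (0 : ℤ) < a * q := by positivity
  obtain ⟨n₀, hn₀⟩ := Int.eq_ofNat_of_zero_le (Int.emod_nonneg (a * u + β) haq.ne')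
  have hn₀' : (n₀ : ℤ) ≡ a * u + β [ZMOD (a * q)] := by
    have : (n₀ : ℤ) = (a * u + β) % (a * q) := hn₀.symm
    rw [this]
    exact Int.mod_modEq _ _
  set small : Finset (ℕ × ℕ) := Icc 1 (b ^ 2 + f).toNat ×ˢ Icc 1 (b ^ 2 + f).toNat with hsmall
  refine ⟨n₀, A, C, i + ArithmeticFunction.cardFactors A, 2 * small.card, hA1, hC1, hC2, hC4,
    by positivity, fun X => ?_⟩
  have hinj : Function.Injective (fun p : ℕ × ℕ => (A * p.1, p.2)) := by
    intro p p' hpp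
    simp only [Prod.mk.injEq] at hpp
    exact Prod.ext (Nat.eq_of_mul_eq_mul_left (by omega) hpp.1) hpp.2
  have c1 := card_cmp hinj (S := SV a b e q u r s₁ s₂ s₃ s₄ X)
    (T := SW t c (A * q) n₀ (A * r) (A * s₁ / C) (A * s₂ / C) (s₃ / C) (s₄ / C) (C * X))
    (small := small)
    (fwd hF.tt hF.disc hb h hA' hA1 hn₀' hC1 hC2 hC4 hs2 hs4)
    (bwd hF.disc hb h hA' hA1 hn₀' hC1) (fun p =>
    ArithmeticFunction.cardFactors p.1 ≡ i [MOD k] ∧
    ArithmeticFunction.cardFactors p.2 ≡ j [MOD k]) (fun p =>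
    ArithmeticFunction.cardFactors p.1 ≡ i + ArithmeticFunction.cardFactors A [MOD k] ∧
    ArithmeticFunction.cardFactors p.2 ≡ j [MOD k]) (by
      intro p hp
      unfold SV at hp
      have hp1 := (mem_Icc.1 (mem_product.1 (mem_filter.1 hp).1).1).1
      show _ ↔ ArithmeticFunction.cardFactors (A * p.1) ≡ i + ArithmeticFunction.cardFactors A
        [MOD k] ∧ ArithmeticFunction.cardFactors p.2 ≡ j [MOD k]
      rw [ArithmeticFunction.cardFactors_mul (by omega) (by omega),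
        add_comm (ArithmeticFunction.cardFactors A)]
      constructor
      · rintro ⟨h1, h2⟩
        exact ⟨Nat.ModEq.add_right _ h1, h2⟩
      · rintro ⟨h1, h2⟩
        exact ⟨Nat.ModEq.add_right_cancel' _ h1, h2⟩)
  have c2 := card_cmp hinj (S := SV a b e q u r s₁ s₂ s₃ s₄ X)
    (T := SW t c (A * q) n₀ (A * r) (A * s₁ / C) (A * s₂ / C) (s₃ / C) (s₄ / C) (C * X))
    (small := small)
    (fwd hF.tt hF.disc hb h hA' hA1 hn₀' hC1 hC2 hC4 hs2 hs4)
    (bwd hF.disc hb h hA' hA1 hn₀' hC1) (fun _ => True) (fun _ => True) (by simp)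
  rw [filter_true, filter_true] at c2
  unfold devV devW
  have hk1 : (0 : ℝ) ≤ 1 / (k : ℝ) ^ 2 := by positivity
  have hk2 : 1 / (k : ℝ) ^ 2 ≤ 1 := by
    rw [div_le_one (by positivity)]
    have : (1 : ℝ) ≤ k := by exact_mod_cast hk
    nlinarith
  set x₁ : ℝ := (((SV a b e q u r s₁ s₂ s₃ s₄ X).filter (fun p =>
    ArithmeticFunction.cardFactors p.1 ≡ i [MOD k] ∧
    ArithmeticFunction.cardFactors p.2 ≡ j [MOD k])).card : ℝ)
  set x₂ : ℝ := (((SW t c (A * q) n₀ (A * r) (A * s₁ / C) (A * s₂ / C) (s₃ / C) (s₄ / C)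
    (C * X)).filter (fun p =>
    ArithmeticFunction.cardFactors p.1 ≡ i + ArithmeticFunction.cardFactors A [MOD k] ∧
    ArithmeticFunction.cardFactors p.2 ≡ j [MOD k])).card : ℝ)
  set y₁ : ℝ := ((SV a b e q u r s₁ s₂ s₃ s₄ X).card : ℝ)
  set y₂ : ℝ := ((SW t c (A * q) n₀ (A * r) (A * s₁ / C) (A * s₂ / C) (s₃ / C) (s₄ / C)
    (C * X)).card : ℝ)
  have hs0 : (0 : ℝ) ≤ small.card := Nat.cast_nonneg _
  have c1' : |x₁ - x₂| ≤ small.card := by
    convert c1
  calc |x₁ - 1 / (k : ℝ) ^ 2 * y₁|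
      = |(x₂ - 1 / (k : ℝ) ^ 2 * y₂) + ((x₁ - x₂) - 1 / (k : ℝ) ^ 2 * (y₁ - y₂))| := by
        congr 1; ring
    _ ≤ |x₂ - 1 / (k : ℝ) ^ 2 * y₂| + |(x₁ - x₂) - 1 / (k : ℝ) ^ 2 * (y₁ - y₂)| := abs_add_le _ _
    _ ≤ |x₂ - 1 / (k : ℝ) ^ 2 * y₂| + (|x₁ - x₂| + |1 / (k : ℝ) ^ 2 * (y₁ - y₂)|) := by
        gcongr
        exact abs_sub _ _
    _ ≤ |x₂ - 1 / (k : ℝ) ^ 2 * y₂| + (small.card + 1 * small.card) := by
        rw [abs_mul, abs_of_nonneg hk1]
        gcongr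
    _ = |x₂ - 1 / (k : ℝ) ^ 2 * y₂| + 2 * small.card := by ring

/-! ## bad scales -/

theorem bad_scales {g g' : ℕ → ℝ} {C : ℕ} (hC : 1 ≤ C) {K : ℝ}
    (hg : ∀ X : ℕ, g X ≤ g' (C * X) + K)
    (h : ∀ ε : ℝ, 0 < ε → Tendsto (fun N : ℕ => (∑ X ∈ (Icc 1 N).filter
      (fun X : ℕ => ε * X < g' X), 1 / (X : ℝ)) / Real.log N) atTop (nhds 0)) {ε : ℝ}
    (hε : 0 < ε) : Tendsto (fun N : ℕ => (∑ X ∈ (Icc 1 N).filter
      (fun X : ℕ => ε * X < g X), 1 / (X : ℝ)) / Real.log N) atTop (nhds 0) := by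
  have hC0 : (0 : ℝ) < C := by exact_mod_cast hC
  set ε' : ℝ := ε / (2 * C) with hε'
  have hε'0 : 0 < ε' := by positivity
  have hT := h ε' hε'0
  set T : ℕ → ℝ := fun N : ℕ => (∑ X ∈ (Icc 1 N).filter
      (fun X : ℕ => ε' * X < g' X), 1 / (X : ℝ)) / Real.log N with hTdef
  obtain ⟨X₀, hX₀⟩ := exists_nat_ge (2 * K / ε)
  set H : ℝ := ∑ X ∈ Icc 1 X₀, 1 / (X : ℝ) with hH
  -- the upper bound
  have hub : ∀ N : ℕ, 2 ≤ N → (∑ X ∈ (Icc 1 N).filter
      (fun X : ℕ => ε * X < g X), 1 / (X : ℝ)) / Real.log N ≤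
      H / Real.log N + C * T (C * N) * (Real.log C / Real.log N + 1) := by
    intro N hN
    have hN1 : (1 : ℝ) < N := by exact_mod_cast hN
    have hlog : 0 < Real.log N := Real.log_pos hN1
    have hCN1 : (1 : ℝ) < C * N := by
      have : (1 : ℝ) ≤ C := by exact_mod_cast hC
      nlinarith
    have hlogC : 0 < Real.log (C * N) := Real.log_pos hCN1
    have hadd : Real.log (C * N) = Real.log C + Real.log N :=
      Real.log_mul hC0.ne' (by positivity)
    have h1 : ∑ X ∈ (Icc 1 N).filter (fun X : ℕ => ε * X < g X), 1 / (X : ℝ) ≤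
        H + C * ∑ X ∈ (Icc 1 (C * N)).filter (fun X : ℕ => ε' * X < g' X), 1 / (X : ℝ) := by
      have h2 : (Icc 1 N).filter (fun X : ℕ => ε * X < g X) ⊆
          Icc 1 X₀ ∪ (Icc 1 N).filter (fun X : ℕ => ε' * ((C * X : ℕ) : ℝ) < g' (C * X)) := by
        intro X hX
        obtain ⟨hX1, hX2⟩ := mem_filter.1 hX
        rcases le_or_gt X X₀ with h3 | h3
        · exact mem_union_left _ (mem_Icc.2 ⟨(mem_Icc.1 hX1).1, h3⟩)
        · refine mem_union_right _ (mem_filter.2 ⟨hX1, ?_⟩)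
          have h4 : 2 * K / ε < X := lt_of_le_of_lt hX₀ (by exact_mod_cast h3)
          have h5 : 2 * K < ε * X := by
            rw [div_lt_iff₀ hε] at h4
            linarith
          have h6 := hg X
          have h7 : ε' * ((C * X : ℕ) : ℝ) = ε * X / 2 := by
            rw [hε']; push_cast; field_simp
          rw [h7]
          linarith
      calc ∑ X ∈ (Icc 1 N).filter (fun X : ℕ => ε * X < g X), 1 / (X : ℝ)
          ≤ ∑ X ∈ Icc 1 X₀ ∪ (Icc 1 N).filter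
              (fun X : ℕ => ε' * ((C * X : ℕ) : ℝ) < g' (C * X)), 1 / (X : ℝ) :=
            sum_le_sum_of_subset_of_nonneg h2 (fun _ _ _ => by positivity)
        _ ≤ H + ∑ X ∈ (Icc 1 N).filter
              (fun X : ℕ => ε' * ((C * X : ℕ) : ℝ) < g' (C * X)), 1 / (X : ℝ) := by
            rw [hH, ← sum_union_inter]
            have : 0 ≤ ∑ X ∈ Icc 1 X₀ ∩ (Icc 1 N).filter
              (fun X : ℕ => ε' * ((C * X : ℕ) : ℝ) < g' (C * X)), 1 / (X : ℝ) :=
              sum_nonneg (fun _ _ => by positivity)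
            linarith
        _ = H + C * ∑ Y ∈ ((Icc 1 N).filter
              (fun X : ℕ => ε' * ((C * X : ℕ) : ℝ) < g' (C * X))).image (fun X => C * X),
              1 / (Y : ℝ) := by
            rw [sum_image (fun x _ y _ hxy => Nat.eq_of_mul_eq_mul_left (by omega) hxy), mul_sum]
            congr 1
            refine sum_congr rfl fun X _ => ?_
            push_cast
            field_simp
        _ ≤ _ := by
            gcongr
            intro Y hY
            obtain ⟨X, hX, rfl⟩ := mem_image.1 hY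
            obtain ⟨hX1, hX2⟩ := mem_filter.1 hX
            obtain ⟨hX3, hX4⟩ := mem_Icc.1 hX1
            refine mem_filter.2 ⟨mem_Icc.2 ⟨Nat.one_le_iff_ne_zero.2 (by positivity), ?_⟩, hX2⟩
            exact Nat.mul_le_mul_left _ hX4
    have h3 : ∑ X ∈ (Icc 1 (C * N)).filter (fun X : ℕ => ε' * X < g' X), 1 / (X : ℝ) =
        T (C * N) * (Real.log C + Real.log N) := by
      rw [hTdef]
      simp only
      push_cast
      rw [← hadd]
      field_simp
    rw [h3] at h1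
    calc _ ≤ (H + C * (T (C * N) * (Real.log C + Real.log N))) / Real.log N := by gcongr
      _ = _ := by field_simp
  have hlim : Tendsto (fun N : ℕ => H / Real.log N +
      C * T (C * N) * (Real.log C / Real.log N + 1)) atTop (nhds 0) := by
    have hl : Tendsto (fun N : ℕ => Real.log N) atTop atTop :=
      Real.tendsto_log_atTop.comp tendsto_natCast_atTop_atTop
    have h1 : Tendsto (fun N : ℕ => H / Real.log N) atTop (nhds 0) := hl.const_div_atTop H
    have h2 : Tendsto (fun N : ℕ => Real.log C / Real.log N) atTop (nhds 0) :=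
      hl.const_div_atTop _
    have h3 : Tendsto (fun N : ℕ => T (C * N)) atTop (nhds 0) :=
      hT.comp (tendsto_id.const_mul_atTop' (by omega : 0 < C))
    have := h1.add ((h3.const_mul (C : ℝ)).mul (h2.add_const 1))
    simpa using this
  refine squeeze_zero' ?_ ?_ hlim
  · filter_upwards [eventually_ge_atTop 1] with N hN
    have : (1 : ℝ) ≤ N := by exact_mod_cast hN
    have := Real.log_nonneg this
    positivity
  · filter_upwards [eventually_ge_atTop 2] with N hN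
    exact hub N hN

/-! ## the theorem -/

/-- FINQ: for almost all scales `X` the residues modulo `k` of `(Ω(d), Ω(d'))` are equidistributed
over the pairs in every window -/
theorem finq {t c : ℤ} {f : ℕ} {χ : DirichletCharacter ℂ f} (hF : Fd t c f χ) (h : S_FINW t c) :
    S_FINQ t c := by
  intro a b e ha hdisc k hk q u r hq i j s₁ s₂ s₃ s₄ hs1 hs12 hs3 hs34 ε hε
  obtain ⟨n₀, A, C, i', K, hA1, hC1, hC2, hC4, hK, hdev⟩ := dev_le hF ha hdisc hk hq u r i j
    (s₁ := s₁) (s₂ := s₂) (s₃ := s₃) (s₄ := s₄) (by linarith) (by linarith)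
  have hC0 : (0 : ℝ) < C := by exact_mod_cast hC1
  have hA0 : (0 : ℝ) < A := by exact_mod_cast hA1
  refine bad_scales hC1 hdev (fun ε' hε' => ?_) hε
  refine h k hk (A * q) n₀ (A * r) (Nat.one_le_iff_ne_zero.2 (by positivity)) i' j _ _ _ _
    (by positivity) ?_ ?_ (by positivity) ?_ ?_ ε' hε'
  · gcongr
  · rwa [div_le_one hC0]
  · gcongr
  · rwa [div_le_one hC0]

end Pool.Agent.W347.EG
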